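import Pool.Agent.Run7.h479.XX.Bounded

/-! Values of elements of the Iwasawa algebra and units. -/

set_option autoImplicit false

open Filter Topology

namespace Run7.h479.XX.Bounded

variable {p : ℕ} [Fact p.Prime] {C : Type} [NormedField C] [NormedAlgebra ℚ_[p] C] [CompleteSpace C]

/-- The coefficients of a power series over `ℤ_p` as elements of `ℚ_p`. -/
noncomputable def co (F : PowerSeries ℤ_[p]) (n : ℕ) : ℚ_[p] := (PowerSeries.coeff n F : ℤ_[p])

theorem co_le (F : PowerSeries ℤ_[p]) (n : ℕ) : ‖co F n‖ ≤ 1 := PadicInt.norm_le_one _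

theorem co_inj {F G : PowerSeries ℤ_[p]} (h : co F = co G) : F = G := by
  ext n
  exact Subtype.ext (congrFun h n)

theorem ev_mul (F G : PowerSeries ℤ_[p]) {z : C} (hz : ‖z‖ < 1) :
    ev (co (F * G)) z = ev (co F) z * ev (co G) z := by
  have hn : ∀ H : PowerSeries ℤ_[p], Summable fun n => ‖algebraMap ℚ_[p] C (co H n) * z ^ n‖ := by
    intro H
    refine Summable.of_nonneg_of_le (fun n => norm_nonneg _) (fun n => ?_)
      (summable_geometric_of_lt_one (norm_nonneg _) hz)
    rw [norm_mul, norm_algebraMap', norm_pow]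
    exact mul_le_of_le_one_left (by positivity) (co_le H n)
  unfold ev
  rw [tsum_mul_tsum_eq_tsum_sum_antidiagonal_of_summable_norm (hn F) (hn G)]
  refine tsum_congr fun n => ?_
  have h1 : co (F * G) n = ∑ kl ∈ Finset.HasAntidiagonal.antidiagonal n, co F kl.1 * co G kl.2 := by
    unfold co
    rw [PowerSeries.coeff_mul, PadicInt.coe_sum]
    exact Finset.sum_congr rfl fun kl _ => PadicInt.coe_mul _ _
  rw [h1, map_sum, Finset.sum_mul]
  refine Finset.sum_congr rfl fun kl hkl => ?_
  rw [← Finset.HasAntidiagonal.mem_antidiagonal.1 hkl, map_mul, pow_add]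
  ring

/-- `H` is a unit iff its value at one point of the open unit disc has norm `1`. -/
theorem isUnit_iff [IsUltrametricDist C] (H : PowerSeries ℤ_[p]) {z : C} (hz : ‖z‖ < 1) :
    IsUnit H ↔ ‖ev (co H) z‖ = 1 := by
  have hs := summable_ev (C := C) (co_le H) hz
  have h1 : ev (co H) z = algebraMap ℚ_[p] C (co H 0) +
      ∑' n, if n = 0 then 0 else algebraMap ℚ_[p] C (co H n) * z ^ n := by
    unfold ev
    rw [hs.tsum_eq_add_tsum_ite 0, pow_zero, mul_one]
  set R := ∑' n, if n = 0 then 0 else algebraMap ℚ_[p] C (co H n) * z ^ n with hR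
  have hR1 : ‖R‖ ≤ ‖z‖ := by
    refine IsUltrametricDist.norm_tsum_le_of_forall_le_of_nonneg (norm_nonneg _) fun n => ?_
    split_ifs with hn
    · rw [norm_zero]
      exact norm_nonneg _
    · rw [norm_mul, norm_algebraMap', norm_pow]
      calc ‖co H n‖ * ‖z‖ ^ n ≤ 1 * ‖z‖ ^ 1 := by
            refine mul_le_mul (co_le H n) (pow_le_pow_of_le_one (norm_nonneg _) hz.le
              (Nat.one_le_iff_ne_zero.2 hn)) (by positivity) zero_le_one
        _ = ‖z‖ := by ring
  have h2 : ‖algebraMap ℚ_[p] C (co H 0)‖ = ‖(PowerSeries.constantCoeff H : ℤ_[p])‖ := by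
    rw [norm_algebraMap']
    unfold co
    rw [PowerSeries.coeff_zero_eq_constantCoeff]
    rfl
  rw [PowerSeries.isUnit_iff_constantCoeff, PadicInt.isUnit_iff, ← h2, h1]
  constructor
  · intro h3
    have h4 : ‖R‖ < ‖algebraMap ℚ_[p] C (co H 0)‖ := by
      rw [h3]
      exact hR1.trans_lt hz
    rw [IsUltrametricDist.norm_add_eq_max_of_norm_ne_norm h4.ne', max_eq_left h4.le, h3]
  · intro h3
    by_contra h4
    have h5 : ‖algebraMap ℚ_[p] C (co H 0)‖ < 1 := by
      refine lt_of_le_of_ne ?_ h4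
      rw [norm_algebraMap']
      exact co_le H 0
    have h6 := (IsUltrametricDist.norm_add_le_max (algebraMap ℚ_[p] C (co H 0)) R).trans_lt
      (max_lt h5 (hR1.trans_lt hz))
    rw [h3] at h6
    exact lt_irrefl _ h6

end Run7.h479.XX.Bounded
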