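import Mathlib

/-! Bounded `p`-adic power series near the boundary of the open unit disc. -/

set_option autoImplicit false

open Filter Topology

namespace Run7.h479.XX.Bounded

variable {p : ℕ} [Fact p.Prime] {C : Type} [NormedField C] [NormedAlgebra ℚ_[p] C] [CompleteSpace C]

/-- The value at `z` of the power series with the coefficients `f n`. -/
noncomputable def ev (f : ℕ → ℚ_[p]) (z : C) : C := ∑' n, algebraMap ℚ_[p] C (f n) * z ^ n

theorem summable_ev {f : ℕ → ℚ_[p]} {B : ℝ} (hB : ∀ n, ‖f n‖ ≤ B) {z : C} (hz : ‖z‖ < 1) :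
    Summable fun n => algebraMap ℚ_[p] C (f n) * z ^ n := by
  refine Summable.of_norm_bounded (g := fun n => B * ‖z‖ ^ n)
    ((summable_geometric_of_lt_one (norm_nonneg _) hz).mul_left B) fun n => ?_
  rw [norm_mul, norm_algebraMap', norm_pow]
  exact mul_le_mul_of_nonneg_right (hB n) (by positivity)

theorem ev_sub {f g : ℕ → ℚ_[p]} {B B' : ℝ} (hB : ∀ n, ‖f n‖ ≤ B) (hB' : ∀ n, ‖g n‖ ≤ B') {z : C}
    (hz : ‖z‖ < 1) : ev (f - g) z = ev f z - ev g z := by
  unfold ev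
  rw [← (summable_ev hB hz).tsum_sub (summable_ev hB' hz)]
  refine tsum_congr fun n => ?_
  rw [Pi.sub_apply, map_sub, sub_mul]

/-- a coefficient of maximal norm -/
theorem exists_max {f : ℕ → ℚ_[p]} {B : ℝ} (hB : ∀ n, ‖f n‖ ≤ B) (hf : f ≠ 0) :
    ∃ n₀, f n₀ ≠ 0 ∧ (∀ n, ‖f n‖ ≤ ‖f n₀‖) ∧ ∀ n < n₀, ‖f n‖ ≤ ‖f n₀‖ / p := by
  classical
  have hp1 : (1 : ℝ) < p := by exact_mod_cast (Fact.out : p.Prime).one_lt
  obtain ⟨n₁, hn₁⟩ : ∃ n, f n ≠ 0 := by
    by_contra h
    push Not at h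
    exact hf (funext h)
  obtain ⟨k, hk⟩ := pow_unbounded_of_one_lt B hp1
  obtain ⟨m, ⟨n₂, hn₂, hm⟩, hmin⟩ := Int.exists_least_of_bdd
    (P := fun m : ℤ => ∃ n, f n ≠ 0 ∧ (f n).valuation = m) ⟨-(k : ℤ), by
      rintro m ⟨n, hn, rfl⟩
      by_contra h
      push Not at h
      have h1 := hB n
      rw [Padic.norm_eq_zpow_neg_valuation hn] at h1
      have h2 : (p : ℝ) ^ k ≤ (p : ℝ) ^ (-(f n).valuation) := by
        rw [← zpow_natCast]
        exact zpow_le_zpow_right₀ hp1.le (by omega)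
      linarith⟩ ⟨_, n₁, hn₁, rfl⟩
  have hex : ∃ n, f n ≠ 0 ∧ (f n).valuation = m := ⟨n₂, hn₂, hm⟩
  have h1 := Nat.find_spec hex
  refine ⟨Nat.find hex, h1.1, fun n => ?_, fun n hn => ?_⟩
  · by_cases hn : f n = 0
    · rw [hn, norm_zero]
      exact norm_nonneg _
    · rw [Padic.norm_eq_zpow_neg_valuation hn, Padic.norm_eq_zpow_neg_valuation h1.1]
      refine zpow_le_zpow_right₀ hp1.le ?_
      have := hmin _ ⟨n, hn, rfl⟩
      rw [h1.2]
      omega
  · by_cases hn0 : f n = 0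
    · rw [hn0, norm_zero]
      positivity
    · have h2 := hmin _ ⟨n, hn0, rfl⟩
      have h3 : (f n).valuation ≠ m := fun h => Nat.find_min hex hn ⟨hn0, h⟩
      rw [Padic.norm_eq_zpow_neg_valuation hn0, Padic.norm_eq_zpow_neg_valuation h1.1, h1.2,
        le_div_iff₀ (by linarith), ← zpow_add_one₀ (by linarith)]
      exact zpow_le_zpow_right₀ hp1.le (by omega)

/-- A nonzero bounded power series has no zeros near the boundary of the open unit disc. -/
theorem eventually_ne_zero [IsUltrametricDist C] {f : ℕ → ℚ_[p]} {B : ℝ} (hB : ∀ n, ‖f n‖ ≤ B)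
    (hf : f ≠ 0) {z : ℕ → C} (hz : ∀ i, ‖z i‖ < 1) (hz1 : Tendsto (fun i => ‖z i‖) atTop (𝓝 1)) :
    ∀ᶠ i in atTop, ev f (z i) ≠ 0 := by
  obtain ⟨n₀, h0, h1, h2⟩ := exists_max hB hf
  have hp1 : (1 : ℝ) < p := by exact_mod_cast (Fact.out : p.Prime).one_lt
  have hc : 0 < ‖f n₀‖ := norm_pos_iff.2 h0
  have h3 : Tendsto (fun i => ‖z i‖ ^ n₀) atTop (𝓝 1) := by
    simpa using hz1.pow n₀
  have h4 : (1 : ℝ) / p < 1 := by
    rw [div_lt_one (by linarith)]
    exact hp1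
  filter_upwards [h3.eventually (lt_mem_nhds h4), hz1.eventually (lt_mem_nhds zero_lt_one)]
    with i hi hi0
  have hs := summable_ev hB (hz i)
  intro h5
  unfold ev at h5
  rw [hs.tsum_eq_add_tsum_ite n₀] at h5
  set R := ∑' n, if n = n₀ then 0 else algebraMap ℚ_[p] C (f n) * z i ^ n with hR
  set β := max (‖f n₀‖ / p) (‖f n₀‖ * ‖z i‖ ^ (n₀ + 1)) with hβ
  have hR1 : ‖R‖ ≤ β := by
    refine IsUltrametricDist.norm_tsum_le_of_forall_le_of_nonneg ?_ fun n => ?_
    · exact le_max_of_le_right (by positivity)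
    · split_ifs with hn
      · rw [norm_zero]
        exact le_max_of_le_right (by positivity)
      · rw [norm_mul, norm_algebraMap', norm_pow]
        rcases lt_or_gt_of_ne hn with h6 | h6
        · refine le_max_of_le_left ?_
          calc ‖f n‖ * ‖z i‖ ^ n ≤ ‖f n₀‖ / p * 1 := by
                gcongr
                · exact h2 n h6
                · exact pow_le_one₀ (norm_nonneg _) (hz i).le
            _ = _ := mul_one _
        · exact le_max_of_le_right (mul_le_mul (h1 n)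
            (pow_le_pow_of_le_one (norm_nonneg _) (hz i).le h6) (by positivity) hc.le)
  have h6 : ‖algebraMap ℚ_[p] C (f n₀) * z i ^ n₀‖ = ‖f n₀‖ * ‖z i‖ ^ n₀ := by
    rw [norm_mul, norm_algebraMap', norm_pow]
  have h7 : algebraMap ℚ_[p] C (f n₀) * z i ^ n₀ = -R := eq_neg_of_add_eq_zero_left h5
  rw [h7, norm_neg] at h6
  have h8 : β < ‖f n₀‖ * ‖z i‖ ^ n₀ := by
    refine max_lt ?_ ?_
    · rw [div_eq_mul_one_div]
      gcongr
    · gcongr 1
      rw [pow_succ]
      have : 0 < ‖z i‖ ^ n₀ := by positivity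
      nlinarith [hz i]
  linarith

/-- Two bounded power series which agree at points tending to the boundary are equal. -/
theorem eq_of_frequently [IsUltrametricDist C] {f g : ℕ → ℚ_[p]} {B B' : ℝ}
    (hB : ∀ n, ‖f n‖ ≤ B) (hB' : ∀ n, ‖g n‖ ≤ B') {z : ℕ → C} (hz : ∀ i, ‖z i‖ < 1)
    (hz1 : Tendsto (fun i => ‖z i‖) atTop (𝓝 1)) (h : ∃ᶠ i in atTop, ev f (z i) = ev g (z i)) :
    f = g := by
  by_contra hne
  have h1 : f - g ≠ 0 := sub_ne_zero.2 hne
  have h2 : ∀ n, ‖(f - g) n‖ ≤ B + B' := fun n => (norm_sub_le _ _).trans (add_le_add (hB n) (hB' n))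
  refine h ?_
  filter_upwards [eventually_ne_zero h2 h1 hz hz1] with i hi h3
  exact hi (by rw [ev_sub hB hB' (hz i), h3, sub_self])

end Run7.h479.XX.Bounded
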