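import Pool.Agent.Run7.h479.XX.Stark

/-! Euler products over the primes of a number field at a real point to the left of the region of convergence:
values and orders by the law of helper453. -/

set_option autoImplicit false

open Filter Topology Set NumberField IsDedekindDomain

namespace Run7.h479.XX.Centre

variable {K : Type} [Field K] [NumberField K] {N : ℕ}

/-- For `v = x.1`, `k = x.2`: the term
`(∑_i a_{v,i}^k) / (k N(v)^{kσ}) · exp(iγ k log N(v) / T) / Γ(1 + k log N(v) / T)`. -/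
noncomputable def term (a : HeightOneSpectrum (𝓞 K) → Fin N → ℂ) (σ γ T : ℝ)
    (x : HeightOneSpectrum (𝓞 K) × ℕ+) : ℂ :=
  (∑ i, a x.1 i ^ (x.2 : ℕ)) / (((x.2 : ℕ) : ℂ) * ((nm x.1 ^ (((x.2 : ℕ) : ℝ) * σ) : ℝ) : ℂ)) *
    weight γ T ((x.2 : ℕ) * Real.log (nm x.1))

/-- The sum of these terms. -/
noncomputable def sum (a : HeightOneSpectrum (𝓞 K) → Fin N → ℂ) (σ γ T : ℝ) : ℂ := ∑' x, term a σ γ T x

/-- `L` is the Euler product with the parameters `a` for `Re s > 1 + κ`, `|a_{v,i}| ≤ N(v)^κ`, and meromorphic at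
the points of the real interval `[σ, 1 + κ]`. -/
structure IsL (κ σ : ℝ) (a : HeightOneSpectrum (𝓞 K) → Fin N → ℂ) (L : ℂ → ℂ) : Prop where
  norm : ∀ v i, ‖a v i‖ ≤ nm v ^ κ
  euler : ∀ s : ℂ, 1 + κ < s.re → L s = ∏' v : HeightOneSpectrum (𝓞 K), ∏ i,
    (1 - a v i * (nm v : ℂ) ^ (-s))⁻¹
  mero : ∀ x : ℝ, σ ≤ x → x ≤ 1 + κ → MeromorphicAt L (x : ℂ)
  le : σ ≤ 1 + κ

variable {κ σ : ℝ} {a : HeightOneSpectrum (𝓞 K) → Fin N → ℂ} {L : ℂ → ℂ}

theorem term_eq (a : HeightOneSpectrum (𝓞 K) → Fin N → ℂ) (σ γ T : ℝ)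
    (x : HeightOneSpectrum (𝓞 K) × ℕ+) :
    Pool.Agent.Run7.h453.CX.eterm nm (fun v (j : ℕ+) => ∑ i, a v i ^ (j : ℕ)) σ γ T x =
      term a σ γ T x := by
  have hn : (0 : ℝ) < nm x.1 := by linarith [nm_two x.1]
  have e1 : Real.exp (-(σ * (((x.2 : ℕ) : ℝ) * Real.log (nm x.1)))) =
      (nm x.1 ^ (((x.2 : ℕ) : ℝ) * σ))⁻¹ := by
    rw [← Real.rpow_neg hn.le, Real.rpow_def_of_pos hn]
    congr 1
    ring
  unfold term Pool.Agent.Run7.h453.CX.eterm Pool.Agent.Run7.h453.CX.rterm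
    Pool.Agent.Run7.h453.CX.cEs Pool.Agent.Run7.h453.CX.cE Pool.Agent.Run7.h453.CX.lamE
    Pool.Agent.W189.ML.om weight
  rw [e1]
  push_cast
  rw [div_mul_eq_div_div]
  ring

theorem sum_eq (a : HeightOneSpectrum (𝓞 K) → Fin N → ℂ) (σ γ T : ℝ) :
    ∑' x, Pool.Agent.Run7.h453.CX.eterm nm (fun v (j : ℕ+) => ∑ i, a v i ^ (j : ℕ)) σ γ T x =
      sum a σ γ T := tsum_congr fun x => term_eq a σ γ T x

theorem IsL.summable (h : IsL κ σ a L) (γ : ℝ) {T : ℝ} (hT : 0 < T) :
    Summable fun x => ‖term a σ γ T x‖ := by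
  have E := Pool.Agent.Run7.h453.CX.ed_of (N := N) (κ := κ) (a := a) nm_two nm_sum h.norm
  exact (E.eterm_summable σ γ hT).congr fun x => by rw [term_eq]

/-- `exp(S(T)) → L(σ)`, also if `L(σ) = 0`. -/
theorem IsL.value (h : IsL κ σ a L) (hc : ContinuousAt L (σ : ℂ)) {γ : ℝ} (hγ : Real.pi / 2 < γ) :
    Tendsto (fun T : ℝ => Complex.exp (sum a σ γ T)) atTop (𝓝 (L (σ : ℂ))) := by
  have h1 := law_lim (a := a) (κ := κ) (σ₀ := σ) (F := L) nm_two nm_sum h.norm h.mero h.le h.euler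
    (r := 0) (A := L (σ : ℂ)) (by
      simpa using hc.tendsto.mono_left nhdsWithin_le_nhds) hγ
  simp only [pow_zero, one_mul, Nat.cast_zero, zero_mul, Complex.exp_zero] at h1
  exact h1.congr fun T => by rw [sum_eq]

/-- The law: `S(T) = ρ - m (log T - Λ_γ) + O(1/T)`, `m` the order of `L` at `σ` and `exp(ρ)` its leading
coefficient. -/
theorem IsL.law (h : IsL κ σ a L) {γ : ℝ} (hγ : Real.pi / 2 < γ) :
    ∃ (m : ℤ) (ρ : ℂ) (C T₀ : ℝ), meromorphicOrderAt L (σ : ℂ) = m ∧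
      Complex.exp ρ = meromorphicTrailingCoeffAt L (σ : ℂ) ∧
      ∀ T ≥ T₀, ‖sum a σ γ T - (ρ - m * (Real.log T - Lam γ))‖ ≤ C / T := by
  have E := Pool.Agent.Run7.h453.CX.ed_of (N := N) (κ := κ) (a := a) nm_two nm_sum h.norm
  obtain ⟨m, r, C, T₀, hm, hr, h1⟩ := E.law h.mero (fun s hs1 => by
    rw [h.euler s hs1]
    exact (Pool.Agent.Run7.h453.CX.hasProd_c nm_two nm_sum h.norm hs1).tprod_eq) hγ
  refine ⟨m, r, C, T₀, hm, hr, fun T hT => ?_⟩
  have h2 := h1 T hT
  rw [sum_eq] at h2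
  rw [← norm_neg]
  refine le_trans (le_of_eq ?_) h2
  congr 1
  change -(sum a σ γ T - (r - m * (Real.log T - Lam γ))) = -sum a σ γ T - (m * (Real.log T - Lam γ) - r)
  ring

/-- For `L` analytic at `σ`: `L(σ) ≠ 0` iff `S(T)` converges iff `Re S(T)` does not tend to `-∞`; otherwise
`Re S(T) / log T → -m`, `m ≥ 1` the order of the zero. -/
theorem IsL.nonvanishing (h : IsL κ σ a L) (han : AnalyticAt ℂ L (σ : ℂ)) {γ : ℝ}
    (hγ : Real.pi / 2 < γ) :
    (∃ m : ℕ, meromorphicOrderAt L (σ : ℂ) = (m : ℤ) ∧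
      Tendsto (fun T : ℝ => (sum a σ γ T).re / Real.log T) atTop (𝓝 (-(m : ℝ)))) ∧
    (L (σ : ℂ) ≠ 0 ↔ ∃ ρ : ℂ, Tendsto (fun T : ℝ => sum a σ γ T) atTop (𝓝 ρ)) ∧
    (L (σ : ℂ) ≠ 0 ↔ ∃ (B : ℝ) (T : ℕ → ℝ), Tendsto T atTop atTop ∧ ∀ k, B ≤ (sum a σ γ (T k)).re) ∧
    (L (σ : ℂ) = 0 ↔ Tendsto (fun T : ℝ => (sum a σ γ T).re) atTop atBot) := by
  obtain ⟨m, ρ, C, T₀, hm, hr, h1⟩ := h.law hγ
  have hm0 : 0 ≤ m := by
    have := han.meromorphicOrderAt_nonneg
    rw [hm] at this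
    exact_mod_cast this
  obtain ⟨n, rfl⟩ := Int.eq_ofNat_of_zero_le hm0
  have hC : Tendsto (fun T : ℝ => C / T) atTop (𝓝 0) := tendsto_const_nhds.div_atTop tendsto_id
  have h2 : Tendsto (fun T : ℝ => sum a σ γ T - (ρ - (n : ℤ) * (Real.log T - Lam γ))) atTop (𝓝 0) := by
    rw [tendsto_zero_iff_norm_tendsto_zero]
    refine squeeze_zero' (Eventually.of_forall fun T => norm_nonneg _) ?_ hC
    filter_upwards [eventually_ge_atTop T₀] with T hT using h1 T hT
  have hval := h.value han.continuousAt hγ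
  -- the real part
  have h3 : Tendsto (fun T : ℝ => (sum a σ γ T).re + n * Real.log T) atTop
      (𝓝 (ρ.re + n * (Lam γ).re)) := by
    have h4 := ((Complex.continuous_re.tendsto _).comp h2).add_const (ρ.re + n * (Lam γ).re)
    rw [Complex.zero_re, zero_add] at h4
    refine h4.congr fun T => ?_
    simp only [Function.comp_apply, Complex.sub_re, Int.cast_natCast, Complex.mul_re,
      Complex.natCast_re, Complex.natCast_im, Complex.ofReal_re, zero_mul, sub_zero]
    ring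
  have hn : L (σ : ℂ) = 0 ↔ n ≠ 0 := by
    constructor
    · rintro h5 rfl
      have h6 := Pool.Agent.N41.RM.lim_of_order han.meromorphicAt hm rfl
      simp only [Nat.cast_zero, neg_zero, zpow_zero, one_mul] at h6
      have h7 : Tendsto L (𝓝[≠] (σ : ℂ)) (𝓝 (L (σ : ℂ))) :=
        han.continuousAt.tendsto.mono_left nhdsWithin_le_nhds
      have h8 := tendsto_nhds_unique h7 h6
      rw [h5, ← hr] at h8
      exact Complex.exp_ne_zero _ h8.symm
    · intro h5
      have h6 : Tendsto (fun T : ℝ => (sum a σ γ T).re) atTop atBot := by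
        have h7 : Tendsto (fun T : ℝ => -(n * Real.log T)) atTop atBot :=
          tendsto_neg_atTop_atBot.comp (Real.tendsto_log_atTop.const_mul_atTop (by positivity))
        exact (h7.atBot_add h3).congr fun T => by ring
      have h7 : Tendsto (fun T : ℝ => ‖Complex.exp (sum a σ γ T)‖) atTop (𝓝 0) := by
        simp_rw [Complex.norm_exp]
        exact Real.tendsto_exp_atBot.comp h6
      have h8 := tendsto_nhds_unique h7 hval.norm
      exact norm_eq_zero.1 h8.symm
  have hbot : n ≠ 0 → Tendsto (fun T : ℝ => (sum a σ γ T).re) atTop atBot := by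
    intro h5
    have h7 : Tendsto (fun T : ℝ => -(n * Real.log T)) atTop atBot :=
      tendsto_neg_atTop_atBot.comp (Real.tendsto_log_atTop.const_mul_atTop (by positivity))
    exact (h7.atBot_add h3).congr fun T => by ring
  have hconv : n = 0 → Tendsto (fun T : ℝ => sum a σ γ T) atTop (𝓝 ρ) := by
    rintro rfl
    have h5 := h2.add_const ρ
    rw [zero_add] at h5
    refine h5.congr fun T => ?_
    simp
  have hlogpos : ∀ᶠ T : ℝ in atTop, 0 < Real.log T := by
    filter_upwards [eventually_gt_atTop 1] with T hT using Real.log_pos hT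
  refine ⟨⟨n, hm, ?_⟩, ?_, ?_, ?_⟩
  · have h5 : Tendsto (fun T : ℝ => ((sum a σ γ T).re + n * Real.log T) / Real.log T - n) atTop
        (𝓝 (0 - n)) := (h3.div_atTop Real.tendsto_log_atTop).sub_const _
    rw [zero_sub] at h5
    refine h5.congr' ?_
    filter_upwards [hlogpos] with T hT
    field_simp
    ring
  · constructor
    · intro h5
      exact ⟨ρ, hconv (by
        by_contra h6
        exact h5 (hn.2 h6))⟩
    · rintro ⟨z, hz⟩ h5
      have h6 := hbot (hn.1 h5)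
      have h7 := (Complex.continuous_re.tendsto _).comp hz
      exact not_tendsto_nhds_of_tendsto_atBot h6 _ h7
  · constructor
    · intro h5
      have h6 : n = 0 := by
        by_contra h6
        exact h5 (hn.2 h6)
      have h7 := (Complex.continuous_re.tendsto _).comp (hconv h6)
      have h8 : ∀ᶠ T : ℝ in atTop, ρ.re - 1 ≤ (sum a σ γ T).re := by
        have := h7.eventually (lt_mem_nhds (show ρ.re - 1 < ρ.re by linarith))
        filter_upwards [this] with T hT using hT.le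
      obtain ⟨T₁, hT₁⟩ := eventually_atTop.1 h8
      exact ⟨ρ.re - 1, fun k => T₁ + k, tendsto_const_nhds.add_atTop tendsto_natCast_atTop_atTop,
        fun k => hT₁ _ (by linarith [(Nat.cast_nonneg k : (0 : ℝ) ≤ k)])⟩
    · rintro ⟨B, T, hT, hB⟩ h5
      have h6 := (hbot (hn.1 h5)).comp hT
      obtain ⟨k, hk⟩ := (h6.eventually (eventually_lt_atBot B)).exists
      exact absurd (hB k) (not_le.2 hk)
  · constructor
    · intro h5
      exact hbot (hn.1 h5)
    · intro h5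
      by_contra h6
      have h7 : n = 0 := by
        by_contra h8
        exact h6 (hn.2 h8)
      exact not_tendsto_nhds_of_tendsto_atBot h5 _ ((Complex.continuous_re.tendsto _).comp (hconv h7))

end Run7.h479.XX.Centre
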