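import Pool.Agent.Run7.h453.CX.Euler

/-! The law of helper453's library in classes of primes: leading terms of partial zeta functions. -/

set_option autoImplicit false

namespace Run7.h479.XX

open Filter Topology Set
open Pool.Agent.Run7.h453.CX
open Pool.Agent.W187.UR (Lam)

section one

variable {P : Type} {N : ℕ} {q : P → ℝ} {a : P → Fin N → ℂ} {κ : ℝ}

/-- `T ^ r exp(S(T)) → e ^ (r Λ) A`, if `(s - σ₀) ^ (-r) F(s) → A`; here `A = 0` is allowed. -/
theorem law_lim [Countable P] (h2 : ∀ v, 2 ≤ q v) (hs : ∀ σ : ℝ, 1 < σ → Summable fun v => q v ^ (-σ))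
    (ha : ∀ v j, ‖a v j‖ ≤ q v ^ κ) {F : ℂ → ℂ} {σ₀ : ℝ}
    (hmer : ∀ x : ℝ, σ₀ ≤ x → x ≤ 1 + κ → MeromorphicAt F (x : ℂ)) (hσ : σ₀ ≤ 1 + κ)
    (hprod : ∀ s : ℂ, 1 + κ < s.re → F s = ∏' v, ∏ j, (1 - a v j * (q v : ℂ) ^ (-s))⁻¹)
    {r : ℕ} {A : ℂ} (hA : Tendsto (fun s => (s - σ₀) ^ (-(r : ℤ)) * F s) (𝓝[≠] (σ₀ : ℂ)) (𝓝 A))
    {γ : ℝ} (hγ : Real.pi / 2 < γ) :
    Tendsto (fun T : ℝ => (T : ℂ) ^ r *
      Complex.exp (∑' x, eterm q (fun v (k : ℕ+) => ∑ j, a v j ^ (k : ℕ)) σ₀ γ T x)) atTop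
      (𝓝 (Complex.exp (r * Lam γ) * A)) := by
  have E := ed_of (N := N) h2 hs ha
  obtain ⟨m, ρ, C, T₀, hm, hr, h⟩ := E.law hmer (fun s hs1 => by
    rw [hprod s hs1]
    exact (hasProd_c h2 hs ha hs1).tprod_eq) hγ
  set S : ℝ → ℂ := fun T => ∑' x, eterm q (fun v (k : ℕ+) => ∑ j, a v j ^ (k : ℕ)) σ₀ γ T x with hS
  set c := meromorphicTrailingCoeffAt F (σ₀ : ℂ) with hc
  have hc0 : c ≠ 0 := by
    rw [← hr]
    exact Complex.exp_ne_zero _
  have h3 := (limit_of' (S := fun T => -S T) hr h).2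
  have h4 : Tendsto (fun T : ℝ => (T : ℂ) ^ m * Complex.exp (S T)) atTop
      (𝓝 (Complex.exp (m * Lam γ) * c)) := by
    have h5 := h3.inv₀ (div_ne_zero (Complex.exp_ne_zero _) hc0)
    have e1 : (Complex.exp (-(m * Lam γ)) / c)⁻¹ = Complex.exp (m * Lam γ) * c := by
      rw [Complex.exp_neg, inv_div, div_inv_eq_mul, mul_comm]
    rw [e1] at h5
    refine h5.congr fun T => ?_
    rw [Complex.exp_neg, inv_div, div_inv_eq_mul]
  have hF : MeromorphicAt F (σ₀ : ℂ) := hmer σ₀ le_rfl hσ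
  have h5 := Pool.Agent.N41.RM.lim_of_order hF hm rfl
  -- the order is at least `r`
  have hne : ∀ᶠ s : ℂ in 𝓝[≠] (σ₀ : ℂ), s - σ₀ ≠ 0 := by
    filter_upwards [self_mem_nhdsWithin] with s hs1
    exact sub_ne_zero.2 hs1
  have hid : Tendsto (fun s : ℂ => s - σ₀) (𝓝[≠] (σ₀ : ℂ)) (𝓝 0) := by
    have h6 : Tendsto (fun s : ℂ => s - σ₀) (𝓝 (σ₀ : ℂ)) (𝓝 ((σ₀ : ℂ) - σ₀)) :=
      (continuous_id.sub continuous_const).tendsto _
    rw [sub_self] at h6
    exact h6.mono_left nhdsWithin_le_nhds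
  have hrm : (r : ℤ) ≤ m := by
    by_contra hlt
    push Not at hlt
    obtain ⟨k, hk⟩ := Int.eq_ofNat_of_zero_le (by omega : 0 ≤ (r : ℤ) - m)
    have hk0 : k ≠ 0 := by
      rintro rfl
      omega
    have h6 : Tendsto (fun s : ℂ => (s - σ₀) ^ k * ((s - σ₀) ^ (-(r : ℤ)) * F s))
        (𝓝[≠] (σ₀ : ℂ)) (𝓝 (0 ^ k * A)) := (hid.pow k).mul hA
    have h7 : Tendsto (fun s : ℂ => (s - σ₀) ^ k * ((s - σ₀) ^ (-(r : ℤ)) * F s))
        (𝓝[≠] (σ₀ : ℂ)) (𝓝 c) := by
      refine h5.congr' ?_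
      filter_upwards [hne] with s hs1
      rw [← mul_assoc, ← zpow_natCast, ← zpow_add₀ hs1]
      congr 2
      omega
    rw [zero_pow hk0, zero_mul] at h6
    exact hc0 (tendsto_nhds_unique h7 h6)
  obtain ⟨k, hk⟩ := Int.eq_ofNat_of_zero_le (by omega : 0 ≤ m - (r : ℤ))
  rcases Nat.eq_zero_or_pos k with rfl | hk0
  · have hmr : m = r := by
      simp only [Nat.cast_zero] at hk
      omega
    subst hmr
    have hAc : A = c := tendsto_nhds_unique hA h5
    rw [hAc]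
    have h6 := h4
    simp only [zpow_natCast] at h6
    exact_mod_cast h6
  · have hA0 : A = 0 := by
      have h6 : Tendsto (fun s : ℂ => (s - σ₀) ^ k * ((s - σ₀) ^ (-m) * F s))
          (𝓝[≠] (σ₀ : ℂ)) (𝓝 (0 ^ k * c)) := (hid.pow k).mul h5
      rw [zero_pow hk0.ne', zero_mul] at h6
      refine tendsto_nhds_unique hA (h6.congr' ?_)
      filter_upwards [hne] with s hs1
      rw [← mul_assoc, ← zpow_natCast, ← zpow_add₀ hs1]
      congr 2
      omega
    rw [hA0, mul_zero]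
    have h6 : Tendsto (fun T : ℝ => ((T : ℂ) ^ k)⁻¹) atTop (𝓝 0) := by
      have h7 : Tendsto (fun T : ℝ => (T ^ k)⁻¹) atTop (𝓝 0) :=
        (tendsto_pow_atTop hk0.ne').inv_tendsto_atTop
      have h8 := (Complex.continuous_ofReal.tendsto 0).comp h7
      rw [Complex.ofReal_zero] at h8
      refine h8.congr fun T => ?_
      simp
    have h7 := h6.mul h4
    rw [zero_mul] at h7
    refine h7.congr' ?_
    filter_upwards [eventually_gt_atTop 0] with T hT
    have hT' : (T : ℂ) ≠ 0 := by exact_mod_cast hT.ne'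
    rw [← mul_assoc, ← zpow_natCast, ← zpow_natCast, ← zpow_neg, ← zpow_add₀ hT']
    congr 2
    omega

end one

section two

open Classical in
/-- the term of the sum over the prime powers in the class `g`, weight `1 / k` -/
noncomputable def clTerm {P G : Type} [CommGroup G] (q : P → ℝ) (S : Set P) (cl : P → G) (g : G)
    (γ T : ℝ) (x : P × ℕ+) : ℂ :=
  if x.1 ∉ S ∧ cl x.1 ^ (x.2 : ℕ) = g then
    1 / ((x.2 : ℕ) : ℂ) * (Complex.exp ((γ * (((x.2 : ℕ) * Real.log (q x.1)) / T) : ℝ) * Complex.I) *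
      ((Real.Gamma (1 + ((x.2 : ℕ) * Real.log (q x.1)) / T))⁻¹ : ℝ)) else 0

/-- the sum over the prime powers in the class `g` -/
noncomputable def clSum {P G : Type} [CommGroup G] (q : P → ℝ) (S : Set P) (cl : P → G) (g : G)
    (γ T : ℝ) : ℂ := ∑' x, clTerm q S cl g γ T x

variable {P G : Type} [CommGroup G] [Finite G] {q : P → ℝ} {S : Set P} {cl : P → G}

open Classical in
/-- the parameters of the L-function of `χ` -/
noncomputable def par (S : Set P) (cl : P → G) (χ : AddChar (Additive G) ℂ) (v : P) (_ : Fin 1) : ℂ :=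
  if v ∈ S then 0 else χ (Additive.ofMul (cl v))

theorem par_norm (h2 : ∀ v, 2 ≤ q v) (χ : AddChar (Additive G) ℂ) (v : P) (j : Fin 1) :
    ‖par S cl χ v j‖ ≤ q v ^ (0 : ℝ) := by
  unfold par
  rw [Real.rpow_zero]
  split_ifs
  · rw [norm_zero]
    norm_num
  · rw [AddChar.norm_apply]

theorem clTerm_le (h2 : ∀ v, 2 ≤ q v) (g : G) (γ : ℝ) {T : ℝ} (x : P × ℕ+) :
    ‖clTerm q S cl g γ T x‖ ≤ ‖eterm q (fun _ (k : ℕ+) => ∑ _j : Fin 1, (1 : ℂ) ^ (k : ℕ)) 0 γ T x‖ := by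
  unfold clTerm eterm rterm cEs cE lamE Pool.Agent.W189.ML.om
  split_ifs with h
  · refine le_of_eq ?_
    rw [norm_mul, norm_mul, norm_mul, norm_mul, norm_mul]
    simp
    ring
  · rw [norm_zero]
    exact norm_nonneg _

theorem clTerm_summable [Countable P] (h2 : ∀ v, 2 ≤ q v)
    (hs : ∀ σ : ℝ, 1 < σ → Summable fun v => q v ^ (-σ)) (g : G) (γ : ℝ) {T : ℝ} (hT : 0 < T) :
    Summable fun x => ‖clTerm q S cl g γ T x‖ := by
  have E := ed_of (N := 1) (κ := 0) (a := fun _ _ => (1 : ℂ)) h2 hs (fun v j => by simp)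
  exact Summable.of_nonneg_of_le (fun x => norm_nonneg _) (fun x => clTerm_le h2 g γ x)
    (E.eterm_summable 0 γ hT)

theorem eterm_split [Fintype G] (χ : AddChar (Additive G) ℂ) (γ T : ℝ) (x : P × ℕ+) :
    eterm q (fun v (k : ℕ+) => ∑ j, par S cl χ v j ^ (k : ℕ)) 0 γ T x =
      ∑ g : G, χ (Additive.ofMul g) * clTerm q S cl g γ T x := by
  classical
  unfold clTerm eterm rterm cEs cE lamE Pool.Agent.W189.ML.om par
  by_cases h : x.1 ∈ S
  · simp [h]
  · rw [Finset.sum_eq_single (cl x.1 ^ (x.2 : ℕ))]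
    · simp only [h, if_false, not_false_eq_true, and_self, if_true, Finset.univ_unique,
        Finset.sum_const, Finset.card_singleton, one_smul, zero_mul, neg_zero, Real.exp_zero,
        Complex.ofReal_one, mul_one]
      rw [ofMul_pow, AddChar.map_nsmul_eq_pow]
      ring
    · intro g _ hg
      rw [if_neg fun h1 => hg h1.2.symm, mul_zero]
    · intro h1
      exact absurd (Finset.mem_univ _) h1

theorem sum_split [Fintype G] [Countable P] (h2 : ∀ v, 2 ≤ q v)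
    (hs : ∀ σ : ℝ, 1 < σ → Summable fun v => q v ^ (-σ)) (χ : AddChar (Additive G) ℂ) (γ : ℝ)
    {T : ℝ} (hT : 0 < T) :
    ∑' x, eterm q (fun v (k : ℕ+) => ∑ j, par S cl χ v j ^ (k : ℕ)) 0 γ T x =
      ∑ g : G, χ (Additive.ofMul g) * clSum q S cl g γ T := by
  rw [tsum_congr fun x => eterm_split χ γ T x, Summable.tsum_finsetSum fun g _ =>
    ((clTerm_summable h2 hs g γ hT).of_norm.mul_left _)]
  refine Finset.sum_congr rfl fun g _ => ?_
  rw [tsum_mul_left]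
  rfl

/-- **Leading terms of L-functions of characters by the prime powers in the classes.** -/
theorem char_lim [Fintype G] [Countable P] (h2 : ∀ v, 2 ≤ q v)
    (hs : ∀ σ : ℝ, 1 < σ → Summable fun v => q v ^ (-σ)) (χ : AddChar (Additive G) ℂ) {F : ℂ → ℂ}
    (hmer : ∀ x : ℝ, 0 ≤ x → x ≤ 1 → MeromorphicAt F (x : ℂ))
    (hprod : ∀ s : ℂ, 1 < s.re → F s = ∏' v, (1 - par S cl χ v 0 * (q v : ℂ) ^ (-s))⁻¹)
    {r : ℕ} {A : ℂ} (hA : Tendsto (fun s : ℂ => s ^ (-(r : ℤ)) * F s) (𝓝[≠] 0) (𝓝 A))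
    {γ : ℝ} (hγ : Real.pi / 2 < γ) :
    Tendsto (fun T : ℝ => (T : ℂ) ^ r *
      Complex.exp (∑ g : G, χ (Additive.ofMul g) * clSum q S cl g γ T)) atTop
      (𝓝 (Complex.exp (r * Lam γ) * A)) := by
  have h1 := law_lim (a := par S cl χ) (κ := 0) (σ₀ := 0) (F := F) h2 hs (par_norm h2 χ)
    (fun x hx hx' => hmer x hx (by linarith)) (by norm_num) (fun s hs1 => by
      rw [hprod s (by linarith)]
      simp) (r := r) (A := A) (by simpa using hA) hγ
  refine h1.congr' ?_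
  filter_upwards [eventually_gt_atTop 0] with T hT
  rw [sum_split h2 hs χ γ hT]

/-- Fourier inversion -/
theorem invert [Fintype G] (z : G → ℂ) (b : G) :
    ∑ χ : AddChar (Additive G) ℂ, (χ (Additive.ofMul b))⁻¹ * ∑ c : G, χ (Additive.ofMul c) * z c =
      Fintype.card G * z b := by
  classical
  have h1 : ∀ χ : AddChar (Additive G) ℂ, (χ (Additive.ofMul b))⁻¹ * ∑ c : G,
      χ (Additive.ofMul c) * z c = ∑ c : G, χ (Additive.ofMul (c * b⁻¹)) * z c := by
    intro χ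
    rw [Finset.mul_sum]
    refine Finset.sum_congr rfl fun c _ => ?_
    rw [ofMul_mul, ofMul_inv, AddChar.map_add_eq_mul, AddChar.map_neg_eq_inv]
    ring
  simp_rw [h1]
  rw [Finset.sum_comm]
  have h2 : ∀ c : G, ∑ χ : AddChar (Additive G) ℂ, χ (Additive.ofMul (c * b⁻¹)) * z c =
      if c = b then (Fintype.card G : ℂ) * z b else 0 := by
    intro c
    rw [← Finset.sum_mul, AddChar.sum_apply_eq_ite]
    by_cases h : c = b
    · subst h
      simp
    · rw [if_neg h, if_neg, zero_mul]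
      intro h3
      refine h ?_
      have h4 : c * b⁻¹ = 1 := by
        have := congrArg Additive.toMul h3
        simpa using this
      exact mul_inv_eq_one.1 h4
  simp_rw [h2]
  simp

end two

end Run7.h479.XX
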