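import Mathlib

/-! Entire functions with a functional equation whose gamma factor is `Γ(s)`: the trivial zeros. -/

set_option autoImplicit false

namespace Run7.h479.XX

open Filter Topology Set

/-- `c ^ s Γ(s) F(s) = ± c ^ (w - s) Γ(w - s) F(w - s)`, off the poles of the gamma factors. -/
def FunEq (F : ℂ → ℂ) (w : ℝ) : Prop :=
  ∃ c ε : ℝ, 0 < c ∧ (ε = 1 ∨ ε = -1) ∧
    ∀ s : ℂ, (∀ j : ℕ, s ≠ -(j : ℂ)) → (∀ j : ℕ, (w : ℂ) - s ≠ -(j : ℂ)) →
      (c : ℂ) ^ s * Complex.Gamma s * F s =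
        ε * ((c : ℂ) ^ ((w : ℂ) - s) * Complex.Gamma ((w : ℂ) - s) * F ((w : ℂ) - s))

/-- The function `1 / Γ`. -/
noncomputable def rg (s : ℂ) : ℂ := (Complex.Gamma s)⁻¹

theorem rg_diff : Differentiable ℂ rg := Complex.differentiable_one_div_Gamma

theorem rg_rec (s : ℂ) : rg s = s * rg (s + 1) :=
  Complex.one_div_Gamma_eq_self_mul_one_div_Gamma_add_one s

theorem rg_zero (k : ℕ) : rg (-(k : ℂ)) = 0 := by
  unfold rg
  rw [Complex.Gamma_neg_nat_eq_zero, inv_zero]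

theorem rg_deriv (k : ℕ) : deriv rg (-(k : ℂ)) ≠ 0 := by
  have h1 : ∀ s : ℂ, deriv rg s = rg (s + 1) + s * deriv rg (s + 1) := by
    intro s
    have e1 : rg = fun s => s * rg (s + 1) := funext rg_rec
    have e2 : HasDerivAt (fun s : ℂ => rg (s + 1)) (deriv rg (s + 1)) s := by
      have := (rg_diff (s + 1)).hasDerivAt.comp_add_const s 1
      exact this
    have e3 : HasDerivAt (fun s : ℂ => s * rg (s + 1)) (1 * rg (s + 1) + s * deriv rg (s + 1)) s :=
      (hasDerivAt_id s).mul e2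
    have e4 : deriv rg s = deriv (fun s : ℂ => s * rg (s + 1)) s := by rw [← e1]
    rw [e4, e3.deriv, one_mul]
  induction k with
  | zero =>
    rw [h1]
    simp only [Nat.cast_zero, neg_zero, zero_add, zero_mul, add_zero]
    unfold rg
    rw [Complex.Gamma_one]
    norm_num
  | succ k ih =>
    rw [h1]
    have e1 : -((k + 1 : ℕ) : ℂ) + 1 = -(k : ℂ) := by push_cast; ring
    rw [e1, rg_zero, zero_add]
    refine mul_ne_zero ?_ ih
    rw [neg_ne_zero]
    exact_mod_cast k.succ_ne_zero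

/-- the cofactor of `1 / Γ(s)` in `F(s)` -/
noncomputable def cof (F : ℂ → ℂ) (w c ε : ℝ) (s : ℂ) : ℂ :=
  ε * (c : ℂ) ^ ((w : ℂ) - 2 * s) * Complex.Gamma ((w : ℂ) - s) * F ((w : ℂ) - s)

theorem cof_analytic {F : ℂ → ℂ} (hF : Differentiable ℂ F) {w c ε : ℝ} (hc : 0 < c) {x : ℝ}
    (hx : x < w) : AnalyticAt ℂ (cof F w c ε) (x : ℂ) := by
  have hc' : (c : ℂ) ≠ 0 := by exact_mod_cast hc.ne'
  have ho : IsOpen {z : ℂ | z.re < w} := isOpen_lt Complex.continuous_re continuous_const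
  have h1 : DifferentiableOn ℂ (cof F w c ε) {z : ℂ | z.re < w} := by
    intro z hz
    have hz' : z.re < w := hz
    have h2 : DifferentiableAt ℂ Complex.Gamma ((w : ℂ) - z) := by
      refine Complex.differentiableAt_Gamma _ fun m h => ?_
      have := congrArg Complex.re h
      rw [Complex.sub_re, Complex.ofReal_re, Complex.neg_re, Complex.natCast_re] at this
      have h0 : (0 : ℝ) ≤ m := m.cast_nonneg
      linarith
    have h3 : DifferentiableAt ℂ (fun z : ℂ => Complex.Gamma ((w : ℂ) - z)) z :=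
      DifferentiableAt.comp z (g := Complex.Gamma) (f := fun z : ℂ => (w : ℂ) - z) h2 (by fun_prop)
    have h4 : DifferentiableAt ℂ (fun z : ℂ => F ((w : ℂ) - z)) z :=
      DifferentiableAt.comp z (g := F) (f := fun z : ℂ => (w : ℂ) - z) (hF _) (by fun_prop)
    have h5 : DifferentiableAt ℂ (fun z : ℂ => (c : ℂ) ^ ((w : ℂ) - 2 * z)) z :=
      DifferentiableAt.const_cpow (by fun_prop) (Or.inl hc')
    unfold cof
    exact ((((differentiableAt_const _).mul h5).mul h3).mul h4).differentiableWithinAt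
  refine h1.analyticAt (ho.mem_nhds ?_)
  rw [mem_ofPred_eq, Complex.ofReal_re]
  exact hx

theorem cof_ne {F : ℂ → ℂ} {w c ε : ℝ} (hc : 0 < c) (hε : ε = 1 ∨ ε = -1) {x : ℝ}
    (hx : x < w) (hne : F ((w : ℂ) - x) ≠ 0) : cof F w c ε (x : ℂ) ≠ 0 := by
  have hc' : (c : ℂ) ≠ 0 := by exact_mod_cast hc.ne'
  have hε' : (ε : ℂ) ≠ 0 := by
    rcases hε with h | h <;> rw [h] <;> norm_num
  unfold cof
  refine mul_ne_zero (mul_ne_zero (mul_ne_zero hε' ?_) ?_) hne
  · rw [Complex.cpow_def_of_ne_zero hc']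
    exact Complex.exp_ne_zero _
  · refine Complex.Gamma_ne_zero_of_re_pos ?_
    rw [Complex.sub_re, Complex.ofReal_re, Complex.ofReal_re]
    linarith

/-- near a real point `x < w`: `F = cof · (1 / Γ)` -/
theorem eq_cof {F : ℂ → ℂ} (hF : Differentiable ℂ F) {w c ε : ℝ} (hc : 0 < c)
    (hfe : ∀ s : ℂ, (∀ j : ℕ, s ≠ -(j : ℂ)) → (∀ j : ℕ, (w : ℂ) - s ≠ -(j : ℂ)) →
      (c : ℂ) ^ s * Complex.Gamma s * F s =
        ε * ((c : ℂ) ^ ((w : ℂ) - s) * Complex.Gamma ((w : ℂ) - s) * F ((w : ℂ) - s)))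
    {x : ℝ} (hx : x < w) : F =ᶠ[𝓝 (x : ℂ)] fun s => cof F w c ε s * rg s := by
  have hc' : (c : ℂ) ≠ 0 := by exact_mod_cast hc.ne'
  have hp : ∀ s : ℂ, (∀ j : ℕ, s ≠ -(j : ℂ)) → s.re < w → F s = cof F w c ε s * rg s := by
    intro s h1 h2
    have h3 := hfe s h1 fun j h => by
      have := congrArg Complex.re h
      rw [Complex.sub_re, Complex.ofReal_re, Complex.neg_re, Complex.natCast_re] at this
      have h0 : (0 : ℝ) ≤ j := j.cast_nonneg
      linarith
    have h4 : Complex.Gamma s ≠ 0 := Complex.Gamma_ne_zero h1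
    have h5 : (c : ℂ) ^ s ≠ 0 := by
      rw [Complex.cpow_def_of_ne_zero hc']
      exact Complex.exp_ne_zero _
    unfold cof rg
    have h6 : (c : ℂ) ^ ((w : ℂ) - 2 * s) * (c : ℂ) ^ s = (c : ℂ) ^ ((w : ℂ) - s) := by
      rw [← Complex.cpow_add _ _ hc']
      congr 1
      ring
    rw [← h6] at h3
    have h7 : (c : ℂ) ^ s * Complex.Gamma s * F s = (c : ℂ) ^ s * Complex.Gamma s *
        (ε * (c : ℂ) ^ ((w : ℂ) - 2 * s) * Complex.Gamma ((w : ℂ) - s) * F ((w : ℂ) - s) *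
          (Complex.Gamma s)⁻¹) := by
      rw [h3]
      field_simp
    exact mul_left_cancel₀ (mul_ne_zero h5 h4) h7
  have hcont : ContinuousAt (fun s => cof F w c ε s * rg s) (x : ℂ) :=
    (cof_analytic hF hc hx).continuousAt.mul rg_diff.continuous.continuousAt
  have hev : F =ᶠ[𝓝[≠] (x : ℂ)] fun s => cof F w c ε s * rg s := by
    have ho : IsOpen {z : ℂ | z.re < w} := isOpen_lt Complex.continuous_re continuous_const
    have h1 : ∀ᶠ s in 𝓝[≠] (x : ℂ), s.re < w :=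
      mem_nhdsWithin_of_mem_nhds (ho.mem_nhds (by rw [mem_ofPred_eq, Complex.ofReal_re]; exact hx))
    have h2 : ∀ᶠ s in 𝓝[≠] (x : ℂ), ∀ j : ℕ, s ≠ -(j : ℂ) := by
      rcases (rg_diff.analyticAt (x : ℂ)).eventually_eq_zero_or_eventually_ne_zero with h | h
      · exfalso
        have h0 : rg = fun _ => 0 := AnalyticOnNhd.eq_of_eventuallyEq
          (fun z _ => rg_diff.analyticAt z) (fun z _ => analyticAt_const) h
        have h1 : rg 1 = 0 := by rw [h0]
        unfold rg at h1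
        rw [Complex.Gamma_one] at h1
        norm_num at h1
      · filter_upwards [h] with s hs j hj
        exact hs (by rw [hj, rg_zero])
    filter_upwards [h1, h2] with s h3 h4
    exact hp s h4 h3
  exact (hF.continuous.continuousAt.eventuallyEq_nhds_iff_eventuallyEq_nhdsNE hcont).1 hev

/-- **Trivial zeros.** `F(-k) = 0` and `F'(-k) ≠ 0`. -/
theorem trivial_zero {F : ℂ → ℂ} (hF : Differentiable ℂ F) {w : ℝ} (hfe : FunEq F w) (k : ℕ)
    (hk : 0 < w + k) (hne : F ((w : ℂ) + k) ≠ 0) :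
    F (-(k : ℂ)) = 0 ∧ deriv F (-(k : ℂ)) ≠ 0 := by
  obtain ⟨c, ε, hc, hε, h⟩ := hfe
  have hx : (-(k : ℝ)) < w := by linarith
  have h1 := eq_cof hF hc h hx
  have e1 : ((-(k : ℝ) : ℝ) : ℂ) = -(k : ℂ) := by push_cast; rfl
  rw [e1] at h1
  have h2 : F (-(k : ℂ)) = 0 := by
    rw [h1.eq_of_nhds, rg_zero, mul_zero]
  refine ⟨h2, ?_⟩
  have h3 : deriv F (-(k : ℂ)) = cof F w c ε (-(k : ℂ)) * deriv rg (-(k : ℂ)) := by
    rw [h1.deriv_eq]
    have h4 : DifferentiableAt ℂ (cof F w c ε) (-(k : ℂ)) := by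
      have := (cof_analytic (ε := ε) hF hc hx).differentiableAt
      rwa [e1] at this
    have h5 := (h4.hasDerivAt.mul (rg_diff (-(k : ℂ))).hasDerivAt).deriv
    have h6 : deriv (fun s => cof F w c ε s * rg s) (-(k : ℂ)) =
        deriv (cof F w c ε * rg) (-(k : ℂ)) := rfl
    rw [h6, h5, rg_zero]
    ring
  rw [h3]
  refine mul_ne_zero ?_ (rg_deriv k)
  have h7 := cof_ne (F := F) (ε := ε) hc hε hx (by
    rw [e1, sub_neg_eq_add]
    exact hne)
  rwa [e1] at h7

/-- No zeros between the trivial ones: if `x < 0` is not an integer, then `F(x) ≠ 0`. -/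
theorem ne_of_neg {F : ℂ → ℂ} (hF : Differentiable ℂ F) {w : ℝ} (hfe : FunEq F w) {x : ℝ}
    (hx : x < w) (hx' : ∀ j : ℕ, x ≠ -(j : ℝ)) (hne : F ((w : ℂ) - x) ≠ 0) : F (x : ℂ) ≠ 0 := by
  obtain ⟨c, ε, hc, hε, h⟩ := hfe
  rw [(eq_cof hF hc h hx).eq_of_nhds]
  refine mul_ne_zero (cof_ne hc hε hx hne) ?_
  unfold rg
  refine inv_ne_zero (Complex.Gamma_ne_zero fun j hj => hx' j ?_)
  have := congrArg Complex.re hj
  rwa [Complex.ofReal_re, Complex.neg_re, Complex.natCast_re] at this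

/-- The zeros in the strip are symmetric. -/
theorem order_symm {F : ℂ → ℂ} (hF : Differentiable ℂ F) {w : ℝ} (hfe : FunEq F w) {x : ℝ}
    (hx0 : 0 < x) (hx : x < w) :
    meromorphicOrderAt F (x : ℂ) = meromorphicOrderAt F ((w - x : ℝ) : ℂ) := by
  obtain ⟨c, ε, hc, hε, h⟩ := hfe
  have hc' : (c : ℂ) ≠ 0 := by exact_mod_cast hc.ne'
  rw [meromorphicOrderAt_congr ((eq_cof hF hc h hx).filter_mono nhdsWithin_le_nhds)]
  set A : ℂ → ℂ := cof (fun _ => 1) w c ε with hA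
  have hA1 : AnalyticAt ℂ A (x : ℂ) := cof_analytic (differentiable_const _) hc hx
  have hA2 : A (x : ℂ) ≠ 0 := cof_ne hc hε hx one_ne_zero
  have hr1 : AnalyticAt ℂ rg (x : ℂ) := rg_diff.analyticAt _
  have hr2 : rg (x : ℂ) ≠ 0 := by
    unfold rg
    refine inv_ne_zero (Complex.Gamma_ne_zero_of_re_pos ?_)
    rw [Complex.ofReal_re]
    exact hx0
  have hg : AnalyticAt ℂ (fun s : ℂ => (w : ℂ) - s) (x : ℂ) := by fun_prop
  have hg' : deriv (fun s : ℂ => (w : ℂ) - s) (x : ℂ) ≠ 0 := by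
    have : HasDerivAt (fun s : ℂ => (w : ℂ) - s) (-1) (x : ℂ) := by
      simpa using (hasDerivAt_id (x : ℂ)).const_sub (w : ℂ)
    rw [this.deriv]
    norm_num
  have e1 : (fun s => cof F w c ε s * rg s) = (A * rg) * (F ∘ fun s : ℂ => (w : ℂ) - s) := by
    funext s
    simp only [hA, cof, Pi.mul_apply, Function.comp_apply, mul_one]
    ring
  rw [e1, meromorphicOrderAt_mul (hA1.mul hr1).meromorphicAt
    ((hF.analyticAt _).comp hg).meromorphicAt]
  have e2 : meromorphicOrderAt (A * rg) (x : ℂ) = 0 := by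
    rw [(hA1.mul hr1).meromorphicOrderAt_eq, AnalyticAt.analyticOrderAt_eq_zero (hA1.mul hr1) |>.2
      (by simpa using And.intro hA2 hr2)]
    rfl
  rw [e2, zero_add, meromorphicOrderAt_comp_of_deriv_ne_zero hg hg']
  congr 1
  push_cast
  rfl

theorem order_one {F : ℂ → ℂ} (hF : Differentiable ℂ F) {x : ℂ} (h0 : F x = 0)
    (h1 : deriv F x ≠ 0) : meromorphicOrderAt F x = 1 := by
  have h2 := (hF.analyticAt x).analyticOrderAt_sub_eq_one_of_deriv_ne_zero h1
  have h3 : (fun z => F z - F x) = F := by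
    funext z
    rw [h0, sub_zero]
  rw [h3] at h2
  rw [(hF.analyticAt x).meromorphicOrderAt_eq, h2]
  rfl

theorem order_zero {F : ℂ → ℂ} (hF : Differentiable ℂ F) {x : ℂ} (h0 : F x ≠ 0) :
    meromorphicOrderAt F x = 0 := by
  rw [(hF.analyticAt x).meromorphicOrderAt_eq, (hF.analyticAt x).analyticOrderAt_eq_zero.2 h0]
  rfl

/-- The number of the real zeros to the right of `-k`, with multiplicity. -/
theorem excess_formula {F : ℂ → ℂ} (hF : Differentiable ℂ F) {w : ℝ} (hw : 0 < w)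
    (hfe : FunEq F w) (hne : ∀ x : ℝ, w ≤ x → F (x : ℂ) ≠ 0) (k : ℕ)
    (hfin : {x : ℝ | -(k : ℝ) < x ∧ meromorphicOrderAt F (x : ℂ) ≠ 0}.Finite) :
    ∑ᶠ x ∈ Ioi (-(k : ℝ)), (meromorphicOrderAt F (x : ℂ)).untop₀ =
      k + (meromorphicOrderAt F ((w / 2 : ℝ) : ℂ)).untop₀ +
        2 * ∑ᶠ x ∈ Ioo (w / 2) w, (meromorphicOrderAt F (x : ℂ)).untop₀ := by
  set u : ℝ → ℤ := fun x => (meromorphicOrderAt F (x : ℂ)).untop₀ with hu
  have hu0 : ∀ x : ℝ, F (x : ℂ) ≠ 0 → u x = 0 := fun x hx => by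
    rw [hu]
    simp only
    rw [order_zero hF hx]
    rfl
  have hk0 : (0 : ℝ) ≤ k := k.cast_nonneg
  have hfs : ∀ s : Set ℝ, s ⊆ Ioi (-(k : ℝ)) → (s ∩ Function.support u).Finite := fun s hs =>
    hfin.subset fun x hx => ⟨hs hx.1, fun h => hx.2 (by rw [hu]; simp only; rw [h]; rfl)⟩
  have hF0 : ∀ x : ℝ, x ≤ 0 → (∀ j : ℕ, x ≠ -(j : ℝ)) → F (x : ℂ) ≠ 0 := fun x hx hj => by
    refine ne_of_neg hF hfe (by linarith) hj ?_
    have := hne (w - x) (by linarith)
    push_cast at this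
    exact this
  have hone : ∀ j : ℕ, u (-(j : ℝ)) = 1 := fun j => by
    have hj0 : (0 : ℝ) ≤ j := j.cast_nonneg
    have h1 := trivial_zero hF hfe j (by linarith) (by
      have := hne (w + j) (by linarith)
      push_cast at this
      exact this)
    rw [hu]
    simp only
    have e1 : ((-(j : ℝ) : ℝ) : ℂ) = -(j : ℂ) := by push_cast; rfl
    rw [e1, order_one hF h1.1 h1.2]
    rfl
  have hsplit : Ioi (-(k : ℝ)) = Ioc (-(k : ℝ)) 0 ∪ Ioi 0 := by
    rw [Ioc_union_Ioi_eq_Ioi (by linarith)]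
  have hdis : Disjoint (Ioc (-(k : ℝ)) 0) (Ioi 0) := by
    rw [Set.disjoint_left]
    intro x h1 h2
    exact absurd h1.2 (not_le.2 h2)
  have h1 : ∑ᶠ x ∈ Ioc (-(k : ℝ)) 0, u x = k := by
    have e1 : ∑ᶠ x ∈ Ioc (-(k : ℝ)) 0, u x =
        ∑ᶠ x ∈ (fun j : ℕ => -(j : ℝ)) '' (Finset.range k : Set ℕ), u x := by
      refine finsum_mem_inter_support_eq' _ _ _ fun x hx => ?_
      rw [Function.mem_support] at hx
      constructor
      · intro h
        by_contra hc
        refine hx (hu0 x (hF0 x h.2 fun j hj => hc ⟨j, ?_, hj.symm⟩))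
        rw [Finset.coe_range, mem_Iio]
        have := h.1
        rw [hj] at this
        exact_mod_cast (neg_lt_neg_iff.1 this)
      · rintro ⟨j, hj, rfl⟩
        rw [Finset.coe_range, mem_Iio] at hj
        have : (j : ℝ) < k := by exact_mod_cast hj
        exact ⟨by linarith, by have : (0 : ℝ) ≤ j := j.cast_nonneg; linarith⟩
    rw [e1, finsum_mem_image (fun a _ b _ h => by exact_mod_cast neg_injective h),
      finsum_mem_coe_finset, Finset.sum_congr rfl (fun j _ => hone j)]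
    simp
  have h2 : ∑ᶠ x ∈ Ioi (0 : ℝ), u x = ∑ᶠ x ∈ Ioo (0 : ℝ) w, u x := by
    refine finsum_mem_inter_support_eq' _ _ _ fun x hx => ?_
    rw [Function.mem_support] at hx
    constructor
    · intro h
      refine ⟨h, ?_⟩
      by_contra hc
      exact hx (hu0 x (hne x (not_lt.1 hc)))
    · exact fun h => h.1
  have h3 : Ioo (0 : ℝ) w = Ioo 0 (w / 2) ∪ Ico (w / 2) w := by
    rw [Ioo_union_Ico_eq_Ioo (by linarith) (by linarith)]
  have h4 : Ico (w / 2) w = {w / 2} ∪ Ioo (w / 2) w := by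
    rw [← Ioo_insert_left (by linarith : w / 2 < w)]
    rfl
  have h5 : ∑ᶠ x ∈ Ioo (0 : ℝ) (w / 2), u x = ∑ᶠ x ∈ Ioo (w / 2) w, u x := by
    have e1 : Ioo (0 : ℝ) (w / 2) = (fun x : ℝ => w - x) '' Ioo (w / 2) w := by
      rw [Set.image_const_sub_Ioo]
      congr 1 <;> ring
    rw [e1, finsum_mem_image (fun a _ b _ h => sub_right_injective h)]
    refine finsum_mem_congr rfl fun x hx => ?_
    rw [hu]
    simp only
    rw [order_symm hF hfe (x := x) (by linarith [hx.1]) hx.2]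
  show ∑ᶠ x ∈ Ioi (-(k : ℝ)), u x = k + u (w / 2) + 2 * ∑ᶠ x ∈ Ioo (w / 2) w, u x
  rw [hsplit, finsum_mem_union' hdis (hfs _ fun x hx => hx.1) (hfs _ fun x hx => by
      rw [mem_Ioi] at hx ⊢
      linarith), h1, h2, h3, finsum_mem_union' ?_ (hfs _ fun x hx => by
      rw [mem_Ioi]
      linarith [hx.1]) (hfs _ fun x hx => by
      rw [mem_Ioi]
      linarith [hx.1]), h4, finsum_mem_union' ?_ (hfs _ fun x hx => by
      rw [mem_singleton_iff] at hx
      rw [mem_Ioi]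
      linarith) (hfs _ fun x hx => by
      rw [mem_Ioi]
      linarith [hx.1]), finsum_mem_singleton, h5]
  · ring
  · rw [Set.disjoint_left]
    intro x hx hx'
    rw [mem_singleton_iff] at hx
    linarith [hx'.1]
  · rw [Set.disjoint_left]
    intro x hx hx'
    linarith [hx.2, hx'.1]

end Run7.h479.XX
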