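import Pool.Agent.Run7.h453.PC.Any
import Pool.Agent.Run7.h479.XX.FunEq

/-! The law of helper453's library at the trivial zeros. -/

set_option autoImplicit false

namespace Run7.h479.XX

open Filter Topology Set
open Pool.Agent.W187.UR (Lam)
open Pool.Agent.N41.RM (EG excess)
open Pool.Agent.Run7.h453.PC (aterm)

variable {P : Type} {N : ℕ} {q : P → ℝ} {a : P → Fin N → ℂ} {κ : ℝ}

theorem law [Countable P] (E : EG κ q a) {F : ℂ → ℂ} (hF : Differentiable ℂ F) {w : ℝ}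
    (hw0 : 0 < w) (hw : 1 + κ < w) (hfe : FunEq F w)
    (hprod : ∀ s : ℂ, 1 + κ < s.re → F s = ∏' v, ∏ j, (1 - a v j * (q v : ℂ) ^ (-s))⁻¹)
    (k : ℕ) {γ : ℝ} (hγ : Real.pi / 2 < γ) :
    F (-(k : ℂ)) = 0 ∧ ∃ c : ℝ, c ≠ 0 ∧ deriv F (-(k : ℂ)) = c ∧
      (fun T : ℝ => (∑' x, aterm q a (-(k : ℝ)) γ T x) - ((Real.log T - Lam γ) - Real.log |c| +
        Real.pi * ((k + (meromorphicOrderAt F ((w / 2 : ℝ) : ℂ)).untop₀ +
          2 * ∑ᶠ x ∈ Ioo (w / 2) w, (meromorphicOrderAt F (x : ℂ)).untop₀ : ℤ) : ℂ) *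
            Complex.I)) =O[atTop] (fun T : ℝ => 1 / T) ∧
      Tendsto (fun T : ℝ => Complex.exp (∑' x, aterm q a (-(k : ℝ)) γ T x) / (T : ℂ)) atTop
        (𝓝 (Complex.exp (-Lam γ) / c)) := by
  have hmer : ∀ x : ℝ, (-(k : ℝ)) ≤ x → x ≤ 1 + κ → MeromorphicAt F (x : ℂ) :=
    fun x _ _ => (hF.analyticAt _).meromorphicAt
  have hk0 : (0 : ℝ) ≤ k := k.cast_nonneg
  obtain ⟨m, l, h1, h2, hl, h3, h4⟩ := Pool.Agent.Run7.h453.PC.any_law E hmer hprod hγ
  obtain ⟨-, h6⟩ := Pool.Agent.Run7.h453.PC.any_finite E hmer hprod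
  have hne : ∀ x : ℝ, w ≤ x → F (x : ℂ) ≠ 0 := fun x hx =>
    (Pool.Agent.Run7.h453.PC.eg_analytic E hprod (s := (x : ℂ)) (by
      rw [Complex.ofReal_re]; linarith)).2
  have e1 : ((-(k : ℝ) : ℝ) : ℂ) = -(k : ℂ) := by push_cast; rfl
  have h7 := trivial_zero hF hfe k (by linarith) (by
    have := hne (w + k) (by linarith)
    push_cast at this
    exact this)
  rw [e1] at h1 h2
  have h8 := order_one hF h7.1 h7.2
  have hm : m = 1 := by
    rw [h1] at h8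
    exact_mod_cast h8
  subst hm
  have h9 : deriv F (-(k : ℂ)) = l := by
    have h10 := Pool.Agent.N41.RM.lim_of_order (hF.analyticAt (-(k : ℂ))).meromorphicAt h1 h2
    have h11 : Tendsto (fun s => (s - (-(k : ℂ))) ^ (-(1 : ℤ)) * F s) (𝓝[≠] (-(k : ℂ)))
        (𝓝 (deriv F (-(k : ℂ)))) := by
      have h12 := (hF (-(k : ℂ))).hasDerivAt.tendsto_slope
      refine h12.congr fun s => ?_
      rw [slope_def_field, h7.1, sub_zero, zpow_neg_one, div_eq_inv_mul]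
    exact tendsto_nhds_unique h11 h10
  have h10 : excess F (-(k : ℝ)) = k + (meromorphicOrderAt F ((w / 2 : ℝ) : ℂ)).untop₀ +
      2 * ∑ᶠ x ∈ Ioo (w / 2) w, (meromorphicOrderAt F (x : ℂ)).untop₀ := by
    unfold excess
    exact excess_formula hF hw0 hfe hne k (h6.subset fun x hx => ⟨hx.1.le, hx.2⟩)
  refine ⟨h7.1, l, hl, h9, ?_, ?_⟩
  · rw [h10] at h3
    simpa using h3
  · simpa using h4

end Run7.h479.XX
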