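import Mathlib

/-! Systems of linear identities with finitely many unknowns and infinitely many equations. -/

set_option autoImplicit false

namespace Run7.h479.XX.Mult

variable {T W : Type} [Fintype W]

/-- Finitely many of the coefficient vectors, at most as many as there are unknowns, span the others. -/
theorem exists_spanning (n : T → W → ℕ) : ∃ F₀ : Finset T, F₀.card ≤ Fintype.card W ∧
    ∀ t : T, ∃ c : T → ℚ, ∀ σ : W, (n t σ : ℚ) = ∑ s ∈ F₀, c s * n s σ := by
  classical
  set v : T → (W → ℚ) := fun t σ => n t σ with hv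
  obtain ⟨b, hb, hspan, hli⟩ := exists_linearIndependent ℚ (Set.range v)
  have hfin : b.Finite := hli.setFinite
  have : Fintype b := hfin.fintype
  have hcard : Fintype.card b ≤ Fintype.card W := by
    have := hli.fintype_card_le_finrank
    simpa using this
  choose f hf using fun x : b => hb x.2
  refine ⟨Finset.univ.image f, Finset.card_image_le.trans (by simpa using hcard), fun t => ?_⟩
  have h1 : v t ∈ Submodule.span ℚ (v '' (Finset.univ.image f : Finset T)) := by
    have h2 : v t ∈ Submodule.span ℚ b := by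
      rw [hspan]
      exact Submodule.subset_span ⟨t, rfl⟩
    refine Submodule.span_mono ?_ h2
    intro x hx
    exact ⟨f ⟨x, hx⟩, by simp, hf ⟨x, hx⟩⟩
  obtain ⟨c, hc⟩ := (Submodule.mem_span_image_finset_iff_exists_fun ℚ).1 h1
  refine ⟨fun s => if h : s ∈ Finset.univ.image f then c ⟨s, h⟩ else 0, fun σ => ?_⟩
  have h3 := congrFun hc σ
  simp only [Finset.sum_apply, Pi.smul_apply, smul_eq_mul, hv] at h3
  rw [← h3, ← Finset.sum_coe_sort (Finset.univ.image f)]
  refine Finset.sum_congr rfl fun s _ => ?_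
  beta_reduce
  rw [dif_pos s.2]

/-- An identity which follows from finitely many others. -/
theorem transfer {n : T → W → ℕ} {F₀ : Finset T} {t : T} {c : T → ℚ}
    (hc : ∀ σ : W, (n t σ : ℚ) = ∑ s ∈ F₀, c s * n s σ) {e : T → ℤ} {μ μ' : W → ℤ}
    (h : ∀ s ∈ F₀, e s = ∑ σ, n s σ * μ σ) (h' : ∀ s ∈ F₀, e s = ∑ σ, n s σ * μ' σ)
    (ht : e t = ∑ σ, n t σ * μ' σ) : e t = ∑ σ, n t σ * μ σ := by
  have key : ∀ ν : W → ℤ, (∀ s ∈ F₀, e s = ∑ σ, n s σ * ν σ) →
      ((∑ σ, n t σ * ν σ : ℤ) : ℚ) = ∑ s ∈ F₀, c s * e s := by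
    intro ν hν
    push_cast
    simp_rw [hc, Finset.sum_mul]
    rw [Finset.sum_comm]
    refine Finset.sum_congr rfl fun s hs => ?_
    rw [hν s hs]
    push_cast
    rw [Finset.mul_sum]
    exact Finset.sum_congr rfl fun σ _ => by ring
  have h1 := key μ h
  have h2 := key μ' h'
  rw [← ht, ← h1] at h2
  exact_mod_cast h2

end Run7.h479.XX.Mult
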