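import Pool.Agent.Run7.h479.XX.Tensor

/-! Orders of meromorphic Euler products at a real point. -/

set_option autoImplicit false

open Filter Topology Set NumberField IsDedekindDomain

namespace Run7.h479.XX.Centre

variable {K : Type} [Field K] [NumberField K] {N : ℕ}
variable {κ σ : ℝ} {a : HeightOneSpectrum (𝓞 K) → Fin N → ℂ} {L : ℂ → ℂ}

/-- The order `m` of a meromorphic `L` at `σ` by the growth of `Re S(T)`. -/
theorem IsL.order (h : IsL κ σ a L) {γ : ℝ} (hγ : Real.pi / 2 < γ) :
    ∃ m : ℤ, meromorphicOrderAt L (σ : ℂ) = m ∧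
      Tendsto (fun T : ℝ => Complex.exp (-(m * Lam γ)) * (T : ℂ) ^ m *
        Complex.exp (sum a σ γ T)) atTop (𝓝 (meromorphicTrailingCoeffAt L (σ : ℂ))) ∧
      Tendsto (fun T : ℝ => (sum a σ γ T).re / Real.log T) atTop (𝓝 (-(m : ℝ))) ∧
      (m = 0 ↔ ∃ ρ : ℂ, Tendsto (fun T : ℝ => sum a σ γ T) atTop (𝓝 ρ)) ∧
      (m = 0 ↔ ∃ (B : ℝ) (T : ℕ → ℝ), Tendsto T atTop atTop ∧ ∀ k, |(sum a σ γ (T k)).re| ≤ B) ∧
      (0 < m ↔ Tendsto (fun T : ℝ => (sum a σ γ T).re) atTop atBot) ∧
      (m < 0 ↔ Tendsto (fun T : ℝ => (sum a σ γ T).re) atTop atTop) := by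
  obtain ⟨m, ρ, C, T₀, hm, hr, h1⟩ := h.law hγ
  have hC : Tendsto (fun T : ℝ => C / T) atTop (𝓝 0) := tendsto_const_nhds.div_atTop tendsto_id
  have h2 : Tendsto (fun T : ℝ => sum a σ γ T - (ρ - m * (Real.log T - Lam γ))) atTop (𝓝 0) := by
    rw [tendsto_zero_iff_norm_tendsto_zero]
    refine squeeze_zero' (Eventually.of_forall fun T => norm_nonneg _) ?_ hC
    filter_upwards [eventually_ge_atTop T₀] with T hT using h1 T hT
  have h3 : Tendsto (fun T : ℝ => (sum a σ γ T).re + m * Real.log T) atTop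
      (𝓝 (ρ.re + m * (Lam γ).re)) := by
    have h4 := ((Complex.continuous_re.tendsto _).comp h2).add_const (ρ.re + m * (Lam γ).re)
    rw [Complex.zero_re, zero_add] at h4
    refine h4.congr fun T => ?_
    simp only [Function.comp_apply, Complex.sub_re, Complex.mul_re,
      Complex.intCast_re, Complex.intCast_im, Complex.ofReal_re, zero_mul, sub_zero]
    ring
  have hbot : 0 < m → Tendsto (fun T : ℝ => (sum a σ γ T).re) atTop atBot := by
    intro h5
    have h7 : Tendsto (fun T : ℝ => -(m * Real.log T)) atTop atBot :=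
      tendsto_neg_atTop_atBot.comp (Real.tendsto_log_atTop.const_mul_atTop (by exact_mod_cast h5))
    exact (h7.atBot_add h3).congr fun T => by ring
  have htop : m < 0 → Tendsto (fun T : ℝ => (sum a σ γ T).re) atTop atTop := by
    intro h5
    have h7 : Tendsto (fun T : ℝ => -(m * Real.log T)) atTop atTop := by
      have h8 : (0 : ℝ) < -m := by
        have : (m : ℝ) < 0 := by exact_mod_cast h5
        linarith
      exact (Real.tendsto_log_atTop.const_mul_atTop h8).congr fun T => by ring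
    exact (h7.atTop_add h3).congr fun T => by ring
  have hconv : m = 0 → Tendsto (fun T : ℝ => sum a σ γ T) atTop (𝓝 ρ) := by
    rintro rfl
    have h5 := h2.add_const ρ
    rw [zero_add] at h5
    refine h5.congr fun T => ?_
    simp
  have hre : m = 0 → Tendsto (fun T : ℝ => (sum a σ γ T).re) atTop (𝓝 ρ.re) :=
    fun h5 => (Complex.continuous_re.tendsto _).comp (hconv h5)
  have hlogpos : ∀ᶠ T : ℝ in atTop, 0 < Real.log T := by
    filter_upwards [eventually_gt_atTop 1] with T hT using Real.log_pos hT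
  refine ⟨m, hm, ?_, ?_, ⟨fun h5 => ⟨ρ, hconv h5⟩, ?_⟩, ⟨fun h5 => ?_, ?_⟩, ⟨hbot, fun h5 => ?_⟩,
    ⟨htop, fun h5 => ?_⟩⟩
  · have h5 : Tendsto (fun T : ℝ => Complex.exp (sum a σ γ T - (ρ - m * (Real.log T - Lam γ))) *
        Complex.exp ρ) atTop (𝓝 (Complex.exp 0 * Complex.exp ρ)) :=
      ((Complex.continuous_exp.tendsto _).comp h2).mul_const _
    rw [Complex.exp_zero, one_mul, hr] at h5
    refine h5.congr' ?_
    filter_upwards [eventually_gt_atTop 0] with T hT
    rw [← hr, ← Complex.exp_add]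
    have hT' : (T : ℂ) ≠ 0 := by exact_mod_cast hT.ne'
    have e1 : (T : ℂ) ^ m = Complex.exp (m * (Real.log T : ℂ)) := by
      rw [Complex.exp_int_mul, ← Complex.ofReal_exp, Real.exp_log hT]
    rw [e1, ← Complex.exp_add, ← Complex.exp_add]
    congr 1
    ring
  · have h5 : Tendsto (fun T : ℝ => ((sum a σ γ T).re + m * Real.log T) / Real.log T - m) atTop
        (𝓝 (0 - m)) := (h3.div_atTop Real.tendsto_log_atTop).sub_const _
    rw [zero_sub] at h5
    refine h5.congr' ?_
    filter_upwards [hlogpos] with T hT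
    field_simp
    ring
  · rintro ⟨z, hz⟩
    have h7 := (Complex.continuous_re.tendsto _).comp hz
    rcases lt_trichotomy m 0 with h8 | h8 | h8
    · exact absurd h7 (not_tendsto_nhds_of_tendsto_atTop (htop h8) _)
    · exact h8
    · exact absurd h7 (not_tendsto_nhds_of_tendsto_atBot (hbot h8) _)
  · have h7 := (hre h5).abs
    have h8 : ∀ᶠ T : ℝ in atTop, |(sum a σ γ T).re| ≤ |ρ.re| + 1 := by
      have := h7.eventually (gt_mem_nhds (show |ρ.re| < |ρ.re| + 1 by linarith))
      filter_upwards [this] with T hT using hT.le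
    obtain ⟨T₁, hT₁⟩ := eventually_atTop.1 h8
    exact ⟨|ρ.re| + 1, fun k => T₁ + k, tendsto_const_nhds.add_atTop tendsto_natCast_atTop_atTop,
      fun k => hT₁ _ (by linarith [(Nat.cast_nonneg k : (0 : ℝ) ≤ k)])⟩
  · rintro ⟨B, T, hT, hB⟩
    rcases lt_trichotomy m 0 with h8 | h8 | h8
    · have h6 := (htop h8).comp hT
      obtain ⟨k, hk⟩ := (h6.eventually (eventually_gt_atTop B)).exists
      exact absurd ((le_abs_self _).trans (hB k)) (not_le.2 hk)
    · exact h8
    · have h6 := (hbot h8).comp hT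
      obtain ⟨k, hk⟩ := (h6.eventually (eventually_lt_atBot (-B))).exists
      exact absurd (neg_le_of_abs_le (hB k)) (not_le.2 hk)
  · rcases lt_trichotomy m 0 with h8 | h8 | h8
    · exfalso
      obtain ⟨T, hT1, hT2⟩ := ((htop h8).eventually (eventually_gt_atTop 0)).and
        (h5.eventually (eventually_lt_atBot 0)) |>.exists
      linarith
    · exact absurd (hre h8) (not_tendsto_nhds_of_tendsto_atBot h5 _)
    · exact h8
  · rcases lt_trichotomy m 0 with h8 | h8 | h8
    · exact h8
    · exact absurd (hre h8) (not_tendsto_nhds_of_tendsto_atTop h5 _)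
    · exfalso
      obtain ⟨T, hT1, hT2⟩ := (h5.eventually (eventually_gt_atTop 0)).and
        ((hbot h8).eventually (eventually_lt_atBot 0)) |>.exists
      linarith

end Run7.h479.XX.Centre
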