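import Pool.Agent.Run7.h479.XX.Cls
import Pool.Agent.N41.RM.Frob

/-! Partial zeta functions at `s = 0` by sums over the prime ideals in the classes. -/

set_option autoImplicit false

open Filter Topology Set NumberField IsDedekindDomain

namespace Run7.h479.XX

variable {K : Type} [Field K] [NumberField K] {G : Type} [CommGroup G] [Fintype G]

/-- The absolute norm of the prime `v`. -/
noncomputable def nm (v : HeightOneSpectrum (𝓞 K)) : ℝ := (Ideal.absNorm v.asIdeal : ℝ)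

/-- The weight `exp(iγ t / T) / Γ(1 + t / T)`. -/
noncomputable def weight (γ T t : ℝ) : ℂ :=
  Complex.exp ((γ * (t / T) : ℝ) * Complex.I) * ((Real.Gamma (1 + t / T))⁻¹ : ℝ)

open Classical in
/-- The term of the sum over the prime powers in the class `g` for `v = x.1`, `k = x.2`: it is
`exp(iγ k log N(v) / T) / (k Γ(1 + k log N(v) / T))` if `v ∉ S` and `cl(v) ^ k = g`. -/
noncomputable def term (S : Set (HeightOneSpectrum (𝓞 K))) (cl : HeightOneSpectrum (𝓞 K) → G) (g : G)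
    (γ T : ℝ) (x : HeightOneSpectrum (𝓞 K) × ℕ+) : ℂ :=
  if x.1 ∉ S ∧ cl x.1 ^ (x.2 : ℕ) = g then
    1 / ((x.2 : ℕ) : ℂ) * weight γ T ((x.2 : ℕ) * Real.log (nm x.1)) else 0

/-- `P_g(T)`, the sum over the prime powers in the class `g`. -/
noncomputable def primeSum (S : Set (HeightOneSpectrum (𝓞 K))) (cl : HeightOneSpectrum (𝓞 K) → G)
    (g : G) (γ T : ℝ) : ℂ := ∑' x, term S cl g γ T x

/-- `S_χ(T) = ∑_g χ(g) P_g(T)`. -/
noncomputable def charSum (S : Set (HeightOneSpectrum (𝓞 K))) (cl : HeightOneSpectrum (𝓞 K) → G)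
    (χ : AddChar (Additive G) ℂ) (γ T : ℝ) : ℂ :=
  ∑ g : G, χ (Additive.ofMul g) * primeSum S cl g γ T

/-- `Λ_γ = ∫_0^∞ (e^{-u} - e^{iγu} / Γ(1 + u)) du / u` -/
noncomputable def Lam (γ : ℝ) : ℂ := ∫ u in Set.Ioi (0 : ℝ),
  (Complex.exp (-(u : ℂ)) - Complex.exp ((γ * u : ℝ) * Complex.I) * ((Real.Gamma (1 + u))⁻¹ : ℝ)) / u

/-- The expression `e ^ (-r Λ_γ) (T ^ r / |G|) ∑_χ χ(b)⁻¹ exp(S_χ(T))` in the prime powers of the classes,
where `χ` runs through the characters of `G`. -/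
noncomputable def approx (S : Set (HeightOneSpectrum (𝓞 K))) (cl : HeightOneSpectrum (𝓞 K) → G)
    (r : ℕ) (b : G) (γ T : ℝ) : ℂ :=
  Complex.exp (-(r * Lam γ)) * ((T : ℂ) ^ r / Fintype.card G) *
    ∑ χ : AddChar (Additive G) ℂ, (χ (Additive.ofMul b))⁻¹ * Complex.exp (charSum S cl χ γ T)

open Classical in
/-- `Z b` is the partial zeta function of the class `b` for the class map `cl` on the primes outside of
`S`: for every character `χ` of `G` the function `∑_b χ(b) Z_b(s)` is the L-function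
`∏_{v ∉ S} (1 - χ(cl(v)) N(v) ^ (-s))⁻¹` for `Re s > 1`, i.e. `Z_b(s) = ∑_{𝔞 ∈ b} N(𝔞) ^ (-s)`; and the `Z_b` are
meromorphic at the points of the real interval `[0, 1]`. -/
structure PartialZeta (S : Set (HeightOneSpectrum (𝓞 K))) (cl : HeightOneSpectrum (𝓞 K) → G)
    (Z : G → ℂ → ℂ) : Prop where
  euler : ∀ (χ : AddChar (Additive G) ℂ) (s : ℂ), 1 < s.re →
    ∑ b : G, χ (Additive.ofMul b) * Z b s = ∏' v : HeightOneSpectrum (𝓞 K),
      if v ∈ S then 1 else (1 - χ (Additive.ofMul (cl v)) * (nm v : ℂ) ^ (-s))⁻¹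
  mero : ∀ (b : G) (x : ℝ), 0 ≤ x → x ≤ 1 → MeromorphicAt (Z b) (x : ℂ)

variable {S : Set (HeightOneSpectrum (𝓞 K))} {cl : HeightOneSpectrum (𝓞 K) → G} {Z : G → ℂ → ℂ}

theorem nm_two (v : HeightOneSpectrum (𝓞 K)) : (2 : ℝ) ≤ nm v := Pool.Agent.R409.RA.two_le v

theorem nm_sum (σ : ℝ) (hσ : 1 < σ) : Summable fun v : HeightOneSpectrum (𝓞 K) => nm v ^ (-σ) :=
  Pool.Agent.R409.RA.summable_nm hσ

theorem term_summable (g : G) (γ : ℝ) {T : ℝ} (hT : 0 < T) :
    Summable fun x => ‖term S cl g γ T x‖ :=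
  clTerm_summable (q := nm) (S := S) (cl := cl) nm_two nm_sum g γ hT

/-- `T ^ r exp(S_χ(T)) → e ^ (r Λ) ∑_b χ(b) z_b` -/
theorem PartialZeta.char (h : PartialZeta S cl Z) {r : ℕ} {z : G → ℂ}
    (hz : ∀ b, Tendsto (fun s : ℂ => s ^ (-(r : ℤ)) * Z b s) (𝓝[≠] 0) (𝓝 (z b)))
    (χ : AddChar (Additive G) ℂ) {γ : ℝ} (hγ : Real.pi / 2 < γ) :
    Tendsto (fun T : ℝ => (T : ℂ) ^ r * Complex.exp (charSum S cl χ γ T)) atTop
      (𝓝 (Complex.exp (r * Lam γ) * ∑ b : G, χ (Additive.ofMul b) * z b)) := by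
  refine char_lim (q := nm) (S := S) (cl := cl) nm_two nm_sum χ
    (F := fun s => ∑ b : G, χ (Additive.ofMul b) * Z b s) (fun x hx hx' => ?_) (fun s hs => ?_) ?_ hγ
  · refine MeromorphicAt.fun_sum fun b _ => ?_
    exact (MeromorphicAt.const _ _).mul (h.mero b x hx hx')
  · show _ = _
    rw [h.euler χ s hs]
    refine tprod_congr fun v => ?_
    unfold par
    split_ifs with hv
    · simp
    · rfl
  · have h1 : Tendsto (fun s : ℂ => ∑ b : G, χ (Additive.ofMul b) * (s ^ (-(r : ℤ)) * Z b s))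
        (𝓝[≠] 0) (𝓝 (∑ b : G, χ (Additive.ofMul b) * z b)) :=
      tendsto_finsetSum _ fun b _ => (hz b).const_mul _
    refine h1.congr fun s => ?_
    rw [Finset.mul_sum]
    exact Finset.sum_congr rfl fun b _ => by ring

/-- `approx b T → z_b` -/
theorem PartialZeta.lim (h : PartialZeta S cl Z) {r : ℕ} {z : G → ℂ}
    (hz : ∀ b, Tendsto (fun s : ℂ => s ^ (-(r : ℤ)) * Z b s) (𝓝[≠] 0) (𝓝 (z b)))
    (b : G) {γ : ℝ} (hγ : Real.pi / 2 < γ) :
    Tendsto (fun T : ℝ => approx S cl r b γ T) atTop (𝓝 (z b)) := by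
  have h1 : Tendsto (fun T : ℝ => ∑ χ : AddChar (Additive G) ℂ, (χ (Additive.ofMul b))⁻¹ *
      ((T : ℂ) ^ r * Complex.exp (charSum S cl χ γ T))) atTop
      (𝓝 (∑ χ : AddChar (Additive G) ℂ, (χ (Additive.ofMul b))⁻¹ *
        (Complex.exp (r * Lam γ) * ∑ c : G, χ (Additive.ofMul c) * z c))) :=
    tendsto_finsetSum _ fun χ _ => (h.char hz χ hγ).const_mul _
  have hcard : (Fintype.card G : ℂ) ≠ 0 := by
    exact_mod_cast Fintype.card_ne_zero
  have e1 : ∑ χ : AddChar (Additive G) ℂ, (χ (Additive.ofMul b))⁻¹ *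
      (Complex.exp (r * Lam γ) * ∑ c : G, χ (Additive.ofMul c) * z c) =
      Complex.exp (r * Lam γ) * (Fintype.card G * z b) := by
    rw [← invert z b, Finset.mul_sum]
    exact Finset.sum_congr rfl fun χ _ => by ring
  rw [e1] at h1
  have h2 := h1.const_mul (Complex.exp (-(r * Lam γ)) / Fintype.card G)
  have e2 : Complex.exp (-(r * Lam γ)) / Fintype.card G *
      (Complex.exp (r * Lam γ) * (Fintype.card G * z b)) = z b := by
    rw [Complex.exp_neg]
    have := Complex.exp_ne_zero (r * Lam γ)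
    field_simp
  rw [e2] at h2
  refine h2.congr fun T => ?_
  unfold approx
  rw [Finset.mul_sum, Finset.mul_sum]
  exact Finset.sum_congr rfl fun χ _ => by ring

/-- the derivative at a zero -/
theorem deriv_lim {F : ℂ → ℂ} (hF : DifferentiableAt ℂ F 0) (h0 : F 0 = 0) :
    Tendsto (fun s : ℂ => s ^ (-((1 : ℕ) : ℤ)) * F s) (𝓝[≠] 0) (𝓝 (deriv F 0)) := by
  refine hF.hasDerivAt.tendsto_slope.congr fun s => ?_
  rw [slope_def_field, h0, sub_zero, sub_zero, Nat.cast_one, zpow_neg_one, div_eq_inv_mul]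

end Run7.h479.XX
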