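import Pool.Agent.Run7.h479.XX.Centre

/-! Partial tensor product L-functions over the primes of a number field. -/

set_option autoImplicit false

open Filter Topology Set NumberField IsDedekindDomain

namespace Run7.h479.XX.Tensor

variable {K : Type} [Field K] [NumberField K] {M N : ℕ}

open Classical in
/-- For `v = x.1`, `k = x.2`: the term `0` if `v ∈ S`, otherwise
`(∑_i b_{v,i}^k) (∑_j c_{v,j}^k) / (k N(v)^{k/2}) · exp(iγ k log N(v) / T) / Γ(1 + k log N(v) / T)`. -/
noncomputable def term (S : Set (HeightOneSpectrum (𝓞 K))) (b : HeightOneSpectrum (𝓞 K) → Fin M → ℂ)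
    (c : HeightOneSpectrum (𝓞 K) → Fin N → ℂ) (γ T : ℝ) (x : HeightOneSpectrum (𝓞 K) × ℕ+) : ℂ :=
  if x.1 ∈ S then 0 else (∑ i, b x.1 i ^ (x.2 : ℕ)) * (∑ j, c x.1 j ^ (x.2 : ℕ)) /
    (((x.2 : ℕ) : ℂ) * ((nm x.1 ^ (((x.2 : ℕ) : ℝ) / 2) : ℝ) : ℂ)) *
      weight γ T ((x.2 : ℕ) * Real.log (nm x.1))

/-- The sum of these terms. -/
noncomputable def sum (S : Set (HeightOneSpectrum (𝓞 K))) (b : HeightOneSpectrum (𝓞 K) → Fin M → ℂ)
    (c : HeightOneSpectrum (𝓞 K) → Fin N → ℂ) (γ T : ℝ) : ℂ := ∑' x, term S b c γ T x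

open Classical in
/-- `L` is the partial L-function `L^S(s)` of the tensor product of two tempered representations with the
Satake parameters (eigenvalues) `b_v`, `c_v`, of absolute value `1`: it is the Euler product over `v ∉ S` for
`Re s > 1`, and meromorphic at the points of the real interval `[1/2, 1]`. -/
structure IsL (S : Set (HeightOneSpectrum (𝓞 K))) (b : HeightOneSpectrum (𝓞 K) → Fin M → ℂ)
    (c : HeightOneSpectrum (𝓞 K) → Fin N → ℂ) (L : ℂ → ℂ) : Prop where
  temperedB : ∀ v ∉ S, ∀ i, ‖b v i‖ = 1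
  temperedC : ∀ v ∉ S, ∀ j, ‖c v j‖ = 1
  euler : ∀ s : ℂ, 1 < s.re → L s = ∏' v : HeightOneSpectrum (𝓞 K),
    if v ∈ S then 1 else ∏ i, ∏ j, (1 - b v i * c v j * (nm v : ℂ) ^ (-s))⁻¹
  mero : ∀ x : ℝ, 1 / 2 ≤ x → x ≤ 1 → MeromorphicAt L (x : ℂ)

variable {S : Set (HeightOneSpectrum (𝓞 K))} {b : HeightOneSpectrum (𝓞 K) → Fin M → ℂ}
  {c : HeightOneSpectrum (𝓞 K) → Fin N → ℂ} {L : ℂ → ℂ}

open Classical in
/-- the parameters of the Euler product -/
noncomputable def par (S : Set (HeightOneSpectrum (𝓞 K))) (b : HeightOneSpectrum (𝓞 K) → Fin M → ℂ)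
    (c : HeightOneSpectrum (𝓞 K) → Fin N → ℂ) (v : HeightOneSpectrum (𝓞 K)) (k : Fin (M * N)) : ℂ :=
  if v ∈ S then 0 else b v (finProdFinEquiv.symm k).1 * c v (finProdFinEquiv.symm k).2

theorem par_prod (v : HeightOneSpectrum (𝓞 K)) (hv : v ∉ S) (f : ℂ → ℂ) :
    ∏ k, f (par S b c v k) = ∏ i, ∏ j, f (b v i * c v j) := by
  unfold par
  simp only [hv, if_false]
  rw [← Fintype.prod_prod_type' (f := fun i j => f (b v i * c v j))]
  exact (finProdFinEquiv.symm.prod_comp fun x : Fin M × Fin N => f (b v x.1 * c v x.2))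

theorem par_sum (v : HeightOneSpectrum (𝓞 K)) (hv : v ∉ S) (k : ℕ) :
    ∑ l, par S b c v l ^ k = (∑ i, b v i ^ k) * ∑ j, c v j ^ k := by
  unfold par
  simp only [hv, if_false]
  rw [Finset.sum_mul_sum, ← Fintype.sum_prod_type' (f := fun i j => b v i ^ k * c v j ^ k)]
  simp_rw [mul_pow]
  exact (finProdFinEquiv.symm.sum_comp fun x : Fin M × Fin N => b v x.1 ^ k * c v x.2 ^ k)

theorem term_eq (γ T : ℝ) (x : HeightOneSpectrum (𝓞 K) × ℕ+) :
    term S b c γ T x = Centre.term (par S b c) (1 / 2) γ T x := by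
  unfold term Centre.term
  by_cases h : x.1 ∈ S
  · simp only [h, if_true]
    have : ∑ i, par S b c x.1 i ^ (x.2 : ℕ) = 0 := by
      refine Finset.sum_eq_zero fun i _ => ?_
      unfold par
      rw [if_pos h, zero_pow x.2.ne_zero]
    rw [this, zero_div, zero_mul]
  · simp only [h, if_false]
    rw [par_sum _ h, show ((x.2 : ℕ) : ℝ) * (1 / 2) = ((x.2 : ℕ) : ℝ) / 2 by ring]

theorem sum_eq (γ T : ℝ) : sum S b c γ T = Centre.sum (par S b c) (1 / 2) γ T :=
  tsum_congr fun x => term_eq γ T x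

theorem IsL.isL (h : IsL S b c L) : Centre.IsL 0 (1 / 2) (par S b c) L where
  norm := fun v k => by
    rw [Real.rpow_zero]
    unfold par
    split_ifs with hv
    · rw [norm_zero]
      norm_num
    · rw [norm_mul, h.temperedB v hv, h.temperedC v hv]
      norm_num
  euler := fun s hs => by
    rw [h.euler s (by linarith)]
    refine tprod_congr fun v => ?_
    by_cases hv : v ∈ S
    · simp [par, hv]
    · simp only [hv, if_false]
      exact (par_prod v hv fun z => (1 - z * (nm v : ℂ) ^ (-s))⁻¹).symm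
  mero := fun x h1 h2 => h.mero x h1 (by linarith)
  le := by norm_num

end Run7.h479.XX.Tensor
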